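import Mathlib

/-!
# Initial sums of preimage histograms for surjective binary cellular automata (MP_0d2fa0_co)

The inequality asked for in Q1 fails: there is a surjective binary cellular automaton of radius `7`
with `N(F,7,0) + N(F,7,1) + N(F,7,2) = 7 < 8 = N(id,7,0) + N(id,7,1) + N(id,7,2)`.
-/

set_option autoImplicit false

open Finset

namespace Pool.Agent.Results.MP_0d2fa0_co.InitialSumsFail

/-- the cellular automaton of radius `r` with local rule `f`:
`F(x)_i = f(x_i, x_{i+1}, …, x_{i+r})` -/
def CA (r : ℕ) (f : (Fin (r + 1) → Bool) → Bool) (x : ℤ → Bool) : ℤ → Bool :=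
  fun i => f (fun j => x (i + (j : ℕ)))

/-- the number of `1`-symbols of a word -/
def ones {m : ℕ} (w : Fin m → Bool) : ℕ := (univ.filter (fun j => w j = true)).card

/-- `N(F,r,k)`: the number of words `w` of length `r + 1` with `f(w) = 1` and `|w|₁ = k` -/
def NF (r : ℕ) (f : (Fin (r + 1) → Bool) → Bool) (k : ℕ) : ℕ :=
  (univ.filter (fun w : Fin (r + 1) → Bool => f w = true ∧ ones w = k)).card

/-- the local rule of the identity, viewed with radius `r` -/
def idRule (r : ℕ) : (Fin (r + 1) → Bool) → Bool := fun w => w 0

/-- the table of the local rule (bit `w` is the value at the word with binary expansion `w`, the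
first symbol being the most significant bit) -/
def T : ℕ := 0xdccb3029ebfb5700f7f73828c3c65c00d4c73928ebfb5700fff63029c2cb5c00

/-- the number with binary expansion `w` -/
def num (w : Fin 8 → Bool) : ℕ :=
  (w 0).toNat * 128 + (w 1).toNat * 64 + (w 2).toNat * 32 + (w 3).toNat * 16 +
    (w 4).toNat * 8 + (w 5).toNat * 4 + (w 6).toNat * 2 + (w 7).toNat

/-- the local rule -/
def rule (w : Fin 8 → Bool) : Bool := T.testBit (num w)

/-- the states reached from the states in the mask `S` by edges with label `a` leaving the states
smaller than `n` -/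
def stepAux (S : ℕ) (a : Bool) : ℕ → ℕ
  | 0 => 0
  | n + 1 =>
    if S.testBit n then
      (stepAux S a n) ||| (if T.testBit (2 * n) = a then 1 <<< ((2 * n) % 128) else 0) |||
        (if T.testBit (2 * n + 1) = a then 1 <<< ((2 * n + 1) % 128) else 0)
    else stepAux S a n

/-- the reachable masks of the subset automaton -/
def masks : List ℕ :=
  [ 0xffffffffffffffffffffffffffffffff, 0x2b3ccfd71404a8ff0809cfd73d3da3ff,
    0xdccf3929ebfb5700fff73829c3cf5c00, 0x40fd31004a03f00010fd20c04a3ff,
    0xccb0020e0fb53000ff20021c0cb5c00, 0x2b38c6d7040008c30809c7d731390000,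
    0xd4c739290bc30400f4c7382903c60000, 0x130004a00f000000100c04a3ff,
    0x2000fb530003f00020c00b5c00, 0x38c6c6000008030800c7c731390000,
    0xc7390900000400f400380903c60000, 0x40fc31004a03f00010fc20000a00f,
    0xccb0000e03b53000f32000100c05000, 0x2b30c017040008c30009c01700300000,
    0xd40030290bc3040000c7302800000000, 0xf000000100c04a3ff,
    0x30000f00020c00b5c00, 0x8c600000008000000c7c731390000,
    0x7390000000400f000380903c60000, 0xfc01004a03f00010fc20000000f,
    0xc00000e03b50000f02000100c00000, 0x2b30c016040000c30009c01400300000,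
    0xd40030290bc300000006302800000000, 0x130004a00f000000100c0003ff,
    0x2000fb500003000020c0000c00, 0x38c6c6000000030800c7c731090000,
    0xc7390900000000f400380803060000, 0x40fc31000003f00000f000000a00f,
    0xccb0000e00003000030000000c05000, 0x2330c017040008c30008c00700300000,
    0xd00030280b00040000c7300800000000, 0x100c04a3ff,
    0xc60000000800000000c631390000, 0x390000000400f000000902c60000,
    0xc01004a03f00010fc200000000, 0xe03b50000f02000100c00000,
    0x2b000016040000c30009c01400300000, 0xd40000290bc300000006302800000000,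
    0x30004a00c000000100c0003ff, 0xfb500003000020c0000c00,
    0x38c004000000030800c7c730000000, 0xc7300800000000f400380803000000,
    0x40fc31000003c00000f000000a00f, 0xccb0000e00003000030000000005000,
    0x23300014040008c30008c00700000000, 0xd00000280b00040000c7300800000000,
    0x80000000008000000c7c730300000, 0x7000000000400f000380803c00000,
    0xfc01004a03f000100c20000000f, 0xc00000e03b50000f02000100000000,
    0x2b30c016040000c30009001400000000, 0xd40030290bc300000006002800000000,
    0x100004a00f000000000c0003ff, 0x2000fb500003000000c0000c00,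
    0x30c6c6000000000800c00031090000, 0xc0390900000000f400300002060000,
    0x40fc01000003f00000f000000a00f, 0xc0b0000e00003000030000000c05000,
    0x2300c017040008c00008000000300000, 0xd00030280b00040000c7000000000000,
    0x1004a03c00010fc200000000, 0xe03850000f02000100c00000,
    0x2b000000040000c30008c01400300000, 0xd40000000bc300000004302800000000,
    0x380004000000030800c7c730000000, 0xc7000800000000f400380803000000,
    0x400c31000003c00000f000000a00f, 0xfc01004a03f000000000000000f,
    0xc00000e03b50000f00000000000000, 0x2b30c016040000c00009000000000000,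
    0xd40030290bc000000006000000000000, 0x30c6c6000000000800000031090000,
    0xc0390900000000f400000002060000, 0x40fc01000003f000000000000a00f,
    0xc01004a03f00000f0000000000, 0xe03b50000f00000000c00000,
    0x2b000016040000c00009c00000300000, 0xd40000290bc000000006300000000000,
    0x38c00400000003080007c730000000, 0xc7300800000000f400080803000000,
    0x40fc31000003c000000000000a00f, 0xf001004a03c000100c200000000,
    0xc00000e03850000f02000100000000, 0x2b30c000040000c30008001400000000,
    0xd40030000bc300000004002800000000, 0x100004a000000000000c0003ff,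
    0x3006c6000000000800c00031090000, 0xc0090900000000f400300002060000,
    0x400c01000003f00000f000000a000, 0x30004a00c000000100c0003f0,
    0x380004000000030800c7c030000000, 0xc7000800000000f400380003000000,
    0x400c01000003000000f000000a00f, 0x23300010040008c00008c00700000000,
    0xd00000200b00040000c7300800000000, 0x4a000000000100c0003ff,
    0x38c00000000000080007c730000000, 0xc7300000000000f400080803000000,
    0x40fc31000003c000000000000a000, 0x23300014040008c30008c00000000000,
    0xd00000280b00040000c7300000000000, 0x380000000000000800c7c730000000,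
    0xc7000000000000f400380803000000, 0x400c31000003c00000f000000a000,
    0x38c00400000003080007c030000000, 0xc7300800000000f400080003000000,
    0x40fc010000030000000000000a00f, 0xf000000100c04a3f0,
    0xfc01004a030000000000000000f, 0x40fc01000003f000000000000a000,
    0xfc01004a03f0000000000000000, 0x100004a00f000000000c0003f0 ]

set_option maxRecDepth 100000 in
theorem masks_step : ∀ S ∈ masks, ∀ a : Bool, stepAux S a 128 ∈ masks := by
  decide +kernel

theorem masks_pos : ∀ S ∈ masks, S ≠ 0 ∧ S < 2 ^ 128 := by
  decide +kernel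

theorem stepAux_spec (S : ℕ) (a : Bool) : ∀ n t : ℕ, (stepAux S a n).testBit t = true →
    ∃ s < n, S.testBit s = true ∧ ∃ b : ℕ, b < 2 ∧ T.testBit (2 * s + b) = a ∧ t = (2 * s + b) % 128 := by
  intro n
  induction n with
  | zero => intro t h; simp [stepAux] at h
  | succ n ih =>
    intro t h
    unfold stepAux at h
    split_ifs at h with h1 h2 h3 h3
    · rw [Nat.testBit_or, Nat.testBit_or, Nat.one_shiftLeft, Nat.one_shiftLeft, Nat.testBit_two_pow,
        Nat.testBit_two_pow, Bool.or_eq_true, Bool.or_eq_true, decide_eq_true_eq,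
        decide_eq_true_eq] at h
      rcases h with (h | h) | h
      · obtain ⟨s, hs, h⟩ := ih t h; exact ⟨s, by omega, h⟩
      · exact ⟨n, by omega, h1, 0, by omega, h2, by omega⟩
      · exact ⟨n, by omega, h1, 1, by omega, h3, by omega⟩
    · rw [Nat.testBit_or, Nat.testBit_or, Nat.one_shiftLeft, Nat.testBit_two_pow,
        Nat.zero_testBit, Bool.or_false, Bool.or_eq_true, decide_eq_true_eq] at h
      rcases h with h | h
      · obtain ⟨s, hs, h⟩ := ih t h; exact ⟨s, by omega, h⟩
      · exact ⟨n, by omega, h1, 0, by omega, h2, by omega⟩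
    · rw [Nat.testBit_or, Nat.testBit_or, Nat.one_shiftLeft, Nat.testBit_two_pow,
        Nat.zero_testBit, Bool.or_false, Bool.or_eq_true, decide_eq_true_eq] at h
      rcases h with h | h
      · obtain ⟨s, hs, h⟩ := ih t h; exact ⟨s, by omega, h⟩
      · exact ⟨n, by omega, h1, 1, by omega, h3, by omega⟩
    · rw [Nat.testBit_or, Nat.testBit_or, Nat.zero_testBit, Bool.or_false, Bool.or_false] at h
      obtain ⟨s, hs, h⟩ := ih t h; exact ⟨s, by omega, h⟩
    · obtain ⟨s, hs, h⟩ := ih t h; exact ⟨s, by omega, h⟩

/-- the state (number of the word of length `7`) at position `i` -/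
def st (x : ℕ → Bool) (i : ℕ) : ℕ :=
  (x i).toNat * 64 + (x (i + 1)).toNat * 32 + (x (i + 2)).toNat * 16 + (x (i + 3)).toNat * 8 +
    (x (i + 4)).toNat * 4 + (x (i + 5)).toNat * 2 + (x (i + 6)).toNat

theorem st_surj : ∀ t < 128, ∃ v : Fin 7 → Bool, (v 0).toNat * 64 + (v 1).toNat * 32 +
    (v 2).toNat * 16 + (v 3).toNat * 8 + (v 4).toNat * 4 + (v 5).toNat * 2 + (v 6).toNat = t := by
  intro t ht
  refine ⟨fun j => t.testBit (6 - j.1), ?_⟩
  revert t
  decide +kernel

/-- the word of length `8` at position `i` -/
def win (x : ℕ → Bool) (i : ℕ) : Fin 8 → Bool := fun j => x (i + j.1)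

theorem num_win (x : ℕ → Bool) (i : ℕ) : num (win x i) = 2 * st x i + (x (i + 7)).toNat := by
  unfold num win st
  simp only [Fin.isValue, Fin.val_zero, Fin.val_one, Fin.val_two, add_zero]
  have e3 : ((3 : Fin 8) : ℕ) = 3 := rfl
  have e4 : ((4 : Fin 8) : ℕ) = 4 := rfl
  have e5 : ((5 : Fin 8) : ℕ) = 5 := rfl
  have e6 : ((6 : Fin 8) : ℕ) = 6 := rfl
  have e7 : ((7 : Fin 8) : ℕ) = 7 := rfl
  rw [e3, e4, e5, e6, e7]
  ring

theorem st_succ (x : ℕ → Bool) (i : ℕ) : st x (i + 1) = (2 * st x i + (x (i + 7)).toNat) % 128 := by
  unfold st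
  have e : ∀ k : ℕ, i + 1 + k = i + (1 + k) := fun k => by ring
  simp only [e]
  norm_num
  cases x i <;> cases x (i + 1) <;> cases x (i + 2) <;> cases x (i + 3) <;> cases x (i + 4) <;>
    cases x (i + 5) <;> cases x (i + 6) <;> cases x (i + 7) <;> rfl

/-- every state of the mask after `k` steps is the end of a path with the given labels -/
theorem path (y : ℕ → Bool) : ∀ k : ℕ, ∃ S ∈ masks, ∀ t < 128, S.testBit t = true →
    ∃ x : ℕ → Bool, st x k = t ∧ ∀ i < k, rule (win x i) = y i := by
  intro k
  induction k with
  | zero =>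
    refine ⟨masks[0], List.getElem_mem _, ?_⟩
    intro t ht _
    obtain ⟨v, hv⟩ := st_surj t ht
    refine ⟨fun i => if h : i < 7 then v ⟨i, h⟩ else false, ?_, fun i hi => absurd hi (by omega)⟩
    rw [← hv]
    rfl
  | succ k ih =>
    obtain ⟨S, hS, hpath⟩ := ih
    refine ⟨stepAux S (y k) 128, masks_step S hS (y k), ?_⟩
    intro t ht hbit
    obtain ⟨s, hs, hsbit, b, hb, hT, hts⟩ := stepAux_spec S (y k) 128 t hbit
    obtain ⟨x, hx1, hx2⟩ := hpath s hs hsbit
    refine ⟨fun i => if i < k + 7 then x i else decide (b = 1), ?_, ?_⟩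
    · rw [st_succ]
      have h1 : st (fun i => if i < k + 7 then x i else decide (b = 1)) k = s := by
        rw [← hx1]
        unfold st
        simp
      rw [h1]
      simp only [lt_irrefl, if_false]
      rw [hts]
      interval_cases b <;> rfl
    · intro i hi
      rcases Nat.lt_or_ge i k with h | h
      · rw [← hx2 i h]
        congr 1
        funext j
        simp only [win]
        rw [if_pos (by omega)]
      · have hik : i = k := by omega
        subst hik
        have h1 : st (fun j => if j < i + 7 then x j else decide (b = 1)) i = s := by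
          rw [← hx1]
          unfold st
          simp
        unfold rule
        rw [num_win, h1]
        simp only [lt_irrefl, if_false]
        rw [← hT]
        congr 1
        interval_cases b <;> rfl

/-- every finite word has a preimage -/
theorem finite_pre (y : ℕ → Bool) (k : ℕ) :
    ∃ x : ℕ → Bool, ∀ i < k, rule (win x i) = y i := by
  obtain ⟨S, hS, h⟩ := path y k
  obtain ⟨h0, h1⟩ := masks_pos S hS
  obtain ⟨t, ht⟩ := Nat.exists_testBit_of_ne_zero h0
  have ht128 : t < 128 := by
    by_contra hcon
    push Not at hcon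
    have : S < 2 ^ t := lt_of_lt_of_le h1 (Nat.pow_le_pow_right (by norm_num) hcon)
    rw [Nat.testBit_lt_two_pow this] at ht
    exact absurd ht (by simp)
  obtain ⟨x, _, hx⟩ := h t ht128 ht
  exact ⟨x, hx⟩

theorem continuous_CA : Continuous (CA 7 rule) := by
  apply continuous_pi
  intro i
  have h1 : Continuous (rule : (Fin 8 → Bool) → Bool) := continuous_of_discreteTopology
  apply h1.comp
  apply continuous_pi
  intro j
  exact continuous_apply _

/-- the automaton is surjective -/
theorem surj : Function.Surjective (CA 7 rule) := by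
  intro y
  have hclosed : IsClosed (Set.range (CA 7 rule)) :=
    (isCompact_range continuous_CA).isClosed
  have hx : ∀ m : ℕ, ∃ x : ℤ → Bool, ∀ i : ℤ, -(m : ℤ) ≤ i → i < m → CA 7 rule x i = y i := by
    intro m
    obtain ⟨x, hx⟩ := finite_pre (fun i => y ((i : ℤ) - m)) (2 * m)
    refine ⟨fun i => x (i + m).toNat, ?_⟩
    intro i h1 h2
    have h3 := hx (i + m).toNat (by omega)
    have h4 : (((i + m).toNat : ℕ) : ℤ) - m = i := by omega
    simp only [h4] at h3
    rw [← h3]
    unfold CA
    congr 1
    funext j
    simp only [win]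
    congr 1
    omega
  choose x hx using hx
  have hlim : Filter.Tendsto (fun m => CA 7 rule (x m)) Filter.atTop (nhds y) := by
    rw [tendsto_pi_nhds]
    intro i
    apply tendsto_const_nhds.congr'
    filter_upwards [Filter.eventually_ge_atTop (i.natAbs + 1)] with m hm
    exact (hx m i (by omega) (by omega)).symm
  have hmem : y ∈ Set.range (CA 7 rule) :=
    hclosed.mem_of_tendsto hlim (Filter.Eventually.of_forall fun m => ⟨x m, rfl⟩)
  exact hmem

set_option maxRecDepth 100000 in
theorem count_rule : ∑ k ∈ range 3, NF 7 rule k = 7 := by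
  decide +kernel

set_option maxRecDepth 100000 in
theorem count_id : ∑ k ∈ range 3, NF 7 (idRule 7) k = 8 := by
  decide +kernel

/-- **MP_0d2fa0_co, Q1: the answer is no.**  There are a radius `r`, a surjective binary cellular
automaton of radius `r` with local rule `f` and some `n ≤ r + 1` such that
`∑_{k ≤ n} N(F,r,k) < ∑_{k ≤ n} N(id,r,k)` (here `r = 7`, `n = 2`, `7 < 8`). -/
theorem result : ∃ (r : ℕ) (f : (Fin (r + 1) → Bool) → Bool), Function.Surjective (CA r f) ∧
    ∃ n ≤ r + 1, ∑ k ∈ range (n + 1), NF r f k < ∑ k ∈ range (n + 1), NF r (idRule r) k := by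
  refine ⟨7, rule, surj, 2, by norm_num, ?_⟩
  rw [count_rule, count_id]
  norm_num

end Pool.Agent.Results.MP_0d2fa0_co.InitialSumsFail
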